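import Pool.Agent.H3.RB.END
import Pool.Agent.H14.RB.ASB
import Pool.Agent.H14.RB.B
import Pool.Agent.H14.RB.FNT
import Pool.Agent.H26.RB.Bdt
import Pool.Agent.H26.RB.Cel
import Pool.Agent.H26.RB.Dis
import Pool.Agent.H26.RB.Iso
import Pool.Agent.H26.RB.Pos
import Pool.Agent.H31.RB.A
import Pool.Agent.H31.RB.Emp
import Pool.Agent.H31.RB.Win
import Pool.Agent.H44.RB.ADT
import Pool.Agent.H54.RB.GRD
import Pool.Agent.H54.RB.VOL
import Pool.Agent.H93.RB.ASA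
import Pool.Agent.H93.RB.CAP
import Pool.Agent.H93.RB.LS
import Pool.Agent.H93.RB.PRB

/-!
# Project RB: assembly
-/

set_option autoImplicit false

namespace Pool.Agent.H3.RB

theorem p_PRB : S_PRB := H93.RB.PRB_proved
theorem p_PCK : S_PCK := H93.RB.PCK_proved
theorem p_CAP : S_CAP := H93.RB.CAP_proved
theorem p_CEL : C_CEL := H26.RB.t_CEL p_CAP p_PCK
theorem p_A : C_A :=
  H31.RB.t_A p_PRB H54.RB.VOL H26.RB.t_DIS H54.RB.GRD H44.RB.adt H31.RB.t_EMP H93.RB.ASA_proved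
theorem p_BDT : C_BDT := H26.RB.t_BDT H26.RB.t_ISO
theorem p_B : C_B := H14.RB.t_B p_PRB p_CEL H31.RB.t_WIN p_BDT H14.RB.t_ASB
theorem p_POS : C_POS := H26.RB.t_POS H93.RB.LS_proved p_CAP
theorem p_FNT : C_FNT := H14.RB.t_FNT p_PRB H54.RB.VOL
theorem p_RES : C_RES := t_END p_PRB p_A p_B p_POS p_FNT

end Pool.Agent.H3.RB
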