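import Mathlib

/-!
# Random Borsuk graph: definitions (project RB)
-/

set_option autoImplicit false

open scoped ENNReal
open MeasureTheory

namespace Pool.Agent.H3.RB

/-- Euclidean space of dimension `d + 1`. -/
abbrev EE (d : ℕ) := EuclideanSpace ℝ (Fin (d + 1))

/-- The unit sphere `S^d`. -/
abbrev Sph (d : ℕ) := Metric.sphere (0 : EE d) 1

/-- The uniform distribution on the sphere: normalised surface measure. -/
noncomputable def unif (d : ℕ) : Measure (Sph d) :=
  ((volume : Measure (EE d)).toSphere Set.univ)⁻¹ • (volume : Measure (EE d)).toSphere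

/-- The law of `n` independent uniformly distributed points. -/
noncomputable def law (d n : ℕ) : Measure (Fin n → Sph d) := Measure.pi fun _ => unif d

/-- The Borsuk graph on the points `x 0, …, x (n-1)`: `i` and `j` are joined iff the geodesic
distance (the angle) of `x i` and `x j` is larger than `π - α`. -/
def borsuk {d n : ℕ} (α : ℝ) (x : Fin n → Sph d) : SimpleGraph (Fin n) where
  Adj i j := i ≠ j ∧
    Real.pi - α < InnerProductGeometry.angle (x i : EE d) (x j : EE d)
  symm := ⟨fun i j h => ⟨h.1.symm, by rw [InnerProductGeometry.angle_comm]; exact h.2⟩⟩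
  loopless := ⟨fun _ h => h.1 rfl⟩

end Pool.Agent.H3.RB
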