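import Pool.Agent.H3.RB.Stm

/-!
# Project RB, part END
-/

set_option autoImplicit false

open scoped ENNReal Topology
open MeasureTheory Filter

namespace Pool.Agent.H3.RB

theorem norm_add_eq {d : ℕ} (u v : Sph d) :
    ‖(u : EE d) + v‖ =
      2 * Real.sin ((Real.pi - InnerProductGeometry.angle (u : EE d) (v : EE d)) / 2) := by
  set θ := InnerProductGeometry.angle (u : EE d) (v : EE d) with hθ
  have hu : ‖(u : EE d)‖ = 1 := by simpa using u.2
  have hv : ‖(v : EE d)‖ = 1 := by simpa using v.2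
  have h1 : (Real.pi - θ) / 2 = Real.pi / 2 - θ / 2 := by ring
  rw [h1, Real.sin_pi_div_two_sub]
  have hθ0 : 0 ≤ θ := InnerProductGeometry.angle_nonneg _ _
  have hθ1 : θ ≤ Real.pi := InnerProductGeometry.angle_le_pi _ _
  have hc : 0 ≤ Real.cos (θ / 2) :=
    Real.cos_nonneg_of_mem_Icc ⟨by linarith [Real.pi_pos], by linarith⟩
  have hin : inner ℝ (u : EE d) (v : EE d) = Real.cos θ := by
    have := InnerProductGeometry.cos_angle (u : EE d) (v : EE d)
    rw [hu, hv] at this
    rw [hθ, this]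
    simp
  have hsq : ‖(u : EE d) + v‖ ^ 2 = (2 * Real.cos (θ / 2)) ^ 2 := by
    rw [norm_add_sq_real, hu, hv, hin]
    have h2 : Real.cos θ = 2 * Real.cos (θ / 2) ^ 2 - 1 := by
      rw [← Real.cos_two_mul]
      congr 1
      ring
    rw [h2]
    ring
  exact (pow_left_inj₀ (norm_nonneg _) (by positivity) (two_ne_zero)).1 hsq

theorem norm_lt_of_angle {d : ℕ} (u v : Sph d) (a : ℝ)
    (h : Real.pi - a < InnerProductGeometry.angle (u : EE d) (v : EE d)) :
    ‖(u : EE d) + v‖ < a := by
  rw [norm_add_eq]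
  have h1 : Real.sin ((Real.pi - InnerProductGeometry.angle (u : EE d) (v : EE d)) / 2) ≤
      (Real.pi - InnerProductGeometry.angle (u : EE d) (v : EE d)) / 2 :=
    Real.sin_le (by linarith [InnerProductGeometry.angle_le_pi (u : EE d) (v : EE d)])
  linarith

theorem angle_of_norm_lt {d : ℕ} (u v : Sph d) (a δ : ℝ) (ha : 0 < a) (ha1 : a ≤ 1)
    (hδ : a ^ 2 ≤ δ) (h : ‖(u : EE d) + v‖ < (1 - δ) * a) :
    Real.pi - a < InnerProductGeometry.angle (u : EE d) (v : EE d) := by
  by_contra hcon
  rw [not_lt] at hcon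
  rw [norm_add_eq] at h
  set s := (Real.pi - InnerProductGeometry.angle (u : EE d) (v : EE d)) / 2 with hs
  have hs1 : s ≤ Real.pi / 2 := by
    have := InnerProductGeometry.angle_nonneg (u : EE d) (v : EE d)
    rw [hs]; linarith
  have hs0 : a / 2 ≤ s := by rw [hs]; linarith
  have h1 : Real.sin (a / 2) ≤ Real.sin s :=
    Real.sin_le_sin_of_le_of_le_pi_div_two (by linarith [Real.pi_pos]) hs1 hs0
  have h2 := Real.sin_gt_sub_cube (x := a / 2) (by linarith)
  have h3 : (1 - δ) * a ≤ 2 * (a / 2 - (a / 2) ^ 3 / 6) := by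
    have : 0 ≤ a * (δ - a ^ 2) := mul_nonneg ha.le (by linarith)
    nlinarith [pow_pos ha 3]
  linarith

theorem scale_tendsto (d : ℕ) (hd : 1 ≤ d) :
    Tendsto (fun n : ℕ => (Real.log n / n) ^ ((1 : ℝ) / d)) atTop (𝓝 0) := by
  have hd0 : (0 : ℝ) < d := by exact_mod_cast hd
  have h1 : Tendsto (fun x : ℝ => Real.log x / x) atTop (𝓝 0) := by
    have := Real.isLittleO_log_id_atTop.tendsto_div_nhds_zero
    simpa using this
  have h2 : Tendsto (fun n : ℕ => Real.log (n : ℝ) / n) atTop (𝓝 0) :=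
    h1.comp tendsto_natCast_atTop_atTop
  have h3 := h2.rpow_const (p := (1 : ℝ) / d) (Or.inr (by positivity))
  rwa [Real.zero_rpow (by positivity)] at h3

theorem scale_pos (d n : ℕ) (hn : 2 ≤ n) : 0 < (Real.log n / n) ^ ((1 : ℝ) / d) := by
  have h1 : (1 : ℝ) < n := by exact_mod_cast hn
  have h2 : 0 < Real.log n := Real.log_pos h1
  positivity

theorem t_END : S_END := by
  intro hP hA hB hPos hFnt d hd
  have hd1 : 1 ≤ d := by omega
  have hd0 : d ≠ 0 := by omega
  obtain ⟨v₀, ρ₀, hv₀, hρ₀, hpos⟩ := hPos d hd1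
  obtain ⟨v₁, hfnt⟩ := hFnt d hd1
  set W : Set ℝ := {w | ∃ ρ : ℝ, 0 < ρ ∧ ∀ b v : ℝ, 0 < b → b < ρ → Str d b v ρ → w ≤ v} with hW
  have hv₀W : v₀ ∈ W := ⟨ρ₀, hρ₀, hpos⟩
  have hbdd : BddAbove W := by
    refine ⟨v₁, ?_⟩
    rintro w ⟨ρ, hρ, h⟩
    obtain ⟨b, hb, hbρ, hs⟩ := hfnt ρ hρ
    exact h b v₁ hb hbρ hs
  set vs := sSup W with hvs
  have hvs0 : 0 < vs := hv₀.trans_le (le_csSup hbdd hv₀W)
  set c : ℝ := (1 / vs) ^ ((d : ℝ)⁻¹) with hc
  have hc0 : 0 < c := by positivity
  have hcd : c ^ d = 1 / vs := Real.rpow_inv_natCast_pow (by positivity) hd0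
  have ht := scale_tendsto d hd1
  have hpr : ∀ n, IsProbabilityMeasure (law d n) := fun n => by
    haveI := hP d
    unfold law
    infer_instance
  refine ⟨c, hc0, fun ε α hε => ⟨fun hα => ?_, fun hα => ?_⟩⟩
  · -- above the threshold
    set c' := (1 + ε / 2) * c with hc'
    set w := vs / (1 + ε / 4) with hw
    have hc'0 : 0 < c' := by positivity
    have hw0 : 0 < w := by positivity
    have hwlt : w < vs := by
      rw [hw, div_lt_iff₀ (by positivity)]
      nlinarith
    have hwc : 1 < w * c' ^ d := by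
      rw [hc', mul_pow, hcd, hw]
      have h1 : 1 + ε / 2 ≤ (1 + ε / 2) ^ d := le_self_pow₀ (by linarith) hd0
      have h2 : vs / (1 + ε / 4) * ((1 + ε / 2) ^ d * (1 / vs)) =
          (1 + ε / 2) ^ d / (1 + ε / 4) := by
        field_simp
      rw [h2, lt_div_iff₀ (by positivity)]
      linarith
    have hex : ∃ ρ : ℝ, 0 < ρ ∧ ∀ b : ℝ, 0 < b → b < ρ → ¬ Str d b w ρ := by
      obtain ⟨w', ⟨ρ, hρ, h⟩, hww⟩ := exists_lt_of_lt_csSup ⟨v₀, hv₀W⟩ hwlt
      exact ⟨ρ, hρ, fun b hb hbρ hs => absurd (h b w hb hbρ hs) (not_le.2 hww)⟩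
    have hlim := hB d w c' hd1 hw0 hc'0 hwc hex
    -- the complement
    have hcomp : Tendsto (fun n : ℕ => law d n
        {x | ((d + 1 : ℕ) : ℕ∞) < (borsuk (α n) x).chromaticNumber}ᶜ) atTop (𝓝 0) := by
      refine tendsto_of_tendsto_of_tendsto_of_le_of_le' tendsto_const_nhds hlim
        (Eventually.of_forall fun _ => zero_le) ?_
      -- smallness of the scale
      have hsmall : ∀ᶠ n : ℕ in atTop,
          (Real.log n / n) ^ ((1 : ℝ) / d) < min (1 / ((1 + ε) * c))
            (Real.sqrt (ε / 2 / (1 + ε)) / ((1 + ε) * c)) := by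
        refine ht.eventually_lt_const (lt_min (by positivity) ?_)
        have : 0 < Real.sqrt (ε / 2 / (1 + ε)) := Real.sqrt_pos.2 (by positivity)
        positivity
      filter_upwards [hα, hsmall, eventually_ge_atTop 2] with n hαn hsm hn2
      refine measure_mono fun x hx => ?_
      simp only [Set.mem_compl_iff, Set.mem_setOf_eq, not_lt] at hx
      rw [SimpleGraph.chromaticNumber_le_iff_colorable] at hx
      obtain ⟨C⟩ := hx
      have ht0 := scale_pos d n hn2
      set t := (Real.log n / n) ^ ((1 : ℝ) / d) with htt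
      set a := (1 + ε) * c * t with ha
      have ha0 : 0 < a := by positivity
      have h1c : 0 < (1 + ε) * c := by positivity
      have ha1 : a ≤ 1 := by
        have := (hsm.trans_le (min_le_left _ _)).le
        rw [le_div_iff₀ h1c] at this
        rw [ha]; linarith
      have ha2 : a ^ 2 ≤ ε / 2 / (1 + ε) := by
        have h3 := (hsm.trans_le (min_le_right _ _)).le
        rw [le_div_iff₀ h1c] at h3
        have h4 : a ≤ Real.sqrt (ε / 2 / (1 + ε)) := by rw [ha]; linarith
        calc a ^ 2 ≤ Real.sqrt (ε / 2 / (1 + ε)) ^ 2 := by gcongr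
          _ = _ := Real.sq_sqrt (by positivity)
      have hδ : (1 - ε / 2 / (1 + ε)) * a = c' * t := by
        rw [ha, hc']
        field_simp
        ring
      show ColX (bn d c' n) x
      refine ⟨fun i => C i, fun i j hij => ?_⟩
      have hbn : bn d c' n = c' * t := rfl
      rw [hbn, ← hδ] at hij
      have hang := angle_of_norm_lt (x i) (x j) a (ε / 2 / (1 + ε)) ha0 ha1 ha2 hij
      have hne : i ≠ j := by
        rintro rfl
        have h2 : ‖(x i : EE d) + x i‖ = 2 := by
          rw [← two_smul ℝ (x i : EE d), norm_smul]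
          have : ‖(x i : EE d)‖ = 1 := by simpa using (x i).2
          rw [this]; norm_num
        rw [h2, hδ] at hij
        have h5 : c' * t ≤ a := by
          rw [ha, hc']
          have : (1 + ε / 2) * c ≤ (1 + ε) * c := by
            apply mul_le_mul_of_nonneg_right _ hc0.le
            linarith
          exact mul_le_mul_of_nonneg_right this ht0.le
        linarith
      exact C.valid (⟨hne, by linarith⟩ : (borsuk (α n) x).Adj i j)
    -- from the complement to the event
    have h1 : ∀ n, 1 - law d n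
        {x | ((d + 1 : ℕ) : ℕ∞) < (borsuk (α n) x).chromaticNumber}ᶜ ≤ law d n
        {x | ((d + 1 : ℕ) : ℕ∞) < (borsuk (α n) x).chromaticNumber} := by
      intro n
      rw [tsub_le_iff_right]
      haveI := hpr n
      calc (1 : ℝ≥0∞) = law d n Set.univ := measure_univ.symm
        _ = law d n ({x | ((d + 1 : ℕ) : ℕ∞) < (borsuk (α n) x).chromaticNumber} ∪
            {x | ((d + 1 : ℕ) : ℕ∞) < (borsuk (α n) x).chromaticNumber}ᶜ) := by
              rw [Set.union_compl_self]
        _ ≤ _ := measure_union_le _ _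
    have h2 : Tendsto (fun n => 1 - law d n
        {x | ((d + 1 : ℕ) : ℕ∞) < (borsuk (α n) x).chromaticNumber}ᶜ) atTop (𝓝 1) := by
      have := ENNReal.Tendsto.sub (tendsto_const_nhds (x := (1 : ℝ≥0∞)) (f := atTop)) hcomp
        (Or.inl ENNReal.one_ne_top)
      simpa using this
    exact tendsto_of_tendsto_of_tendsto_of_le_of_le h2 tendsto_const_nhds h1 fun n => by
      haveI := hpr n
      exact prob_le_one
  · -- below the threshold
    set ε' := min ε (1 / 2) with hε'
    have hε'0 : 0 < ε' := lt_min hε (by norm_num)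
    have hε'1 : ε' ≤ 1 / 2 := min_le_right _ _
    have hε'2 : ε' ≤ ε := min_le_left _ _
    set c' := (1 - ε') * c with hc'
    set w := vs / (1 - ε' / 2) with hw
    have hc'0 : 0 < c' := mul_pos (by linarith) hc0
    have hw0 : 0 < w := div_pos hvs0 (by linarith)
    have hwlt : vs < w := by
      rw [hw, lt_div_iff₀ (by linarith)]
      nlinarith
    have hwc : w * c' ^ d < 1 := by
      rw [hc', mul_pow, hcd, hw]
      have h1 : (1 - ε') ^ d ≤ 1 - ε' := pow_le_of_le_one (by linarith) (by linarith) hd0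
      have h2 : vs / (1 - ε' / 2) * ((1 - ε') ^ d * (1 / vs)) =
          (1 - ε') ^ d / (1 - ε' / 2) := by
        have : (1 - ε' / 2) ≠ 0 := by linarith
        field_simp
      rw [h2, div_lt_one (by linarith)]
      linarith
    have hex : ∀ ρ : ℝ, 0 < ρ → ∃ b v : ℝ, 0 < b ∧ b < ρ ∧ v < w ∧ Str d b v ρ := by
      intro ρ hρ
      by_contra hcon
      push Not at hcon
      have hwW : w ∈ W := by
        refine ⟨ρ, hρ, fun b v hb hbρ hs => ?_⟩
        by_contra hlt
        exact hcon b v hb hbρ (not_le.1 hlt) hs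
      exact absurd (le_csSup hbdd hwW) (not_le.2 hwlt)
    have hlim := hA d w c' hd1 hw0 hc'0 hwc hex
    refine tendsto_of_tendsto_of_tendsto_of_le_of_le' tendsto_const_nhds hlim
      (Eventually.of_forall fun _ => zero_le) ?_
    filter_upwards [hα, eventually_ge_atTop 2] with n hαn hn2
    refine measure_mono fun x hx => ?_
    simp only [Set.mem_setOf_eq] at hx ⊢
    intro hcol
    refine absurd hx (not_lt.2 ?_)
    rw [SimpleGraph.chromaticNumber_le_iff_colorable]
    obtain ⟨C, hC⟩ := hcol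
    refine ⟨SimpleGraph.Coloring.mk C fun {i j} hij => hC i j ?_⟩
    have ht0 := scale_pos d n hn2
    have h1 := norm_lt_of_angle (x i) (x j) (α n) hij.2
    have h2 : (1 - ε) * c * (Real.log n / n) ^ ((1 : ℝ) / d) ≤ bn d c' n := by
      unfold bn
      rw [hc']
      have : (1 - ε) * c ≤ (1 - ε') * c := by
        apply mul_le_mul_of_nonneg_right _ hc0.le
        linarith
      exact mul_le_mul_of_nonneg_right this ht0.le
    linarith

end Pool.Agent.H3.RB
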