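import Pool.Agent.H3.RB.Defs

/-!
# Random Borsuk graph: statements of the parts (project RB)

Everything is in terms of the chordal distance: `angle u v > π - α` iff `‖u + v‖ < 2 sin (α/2)`.
-/

set_option autoImplicit false

open scoped ENNReal Topology
open MeasureTheory Filter

namespace Pool.Agent.H3.RB

/-! ## Colourings and hole structures -/

/-- The points of `A` can be coloured with `d + 1` colours such that almost antipodal points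
(`‖p + q‖ < b`) have different colours. -/
def Col (d : ℕ) (b : ℝ) (A : Set (Sph d)) : Prop :=
  ∃ c : Sph d → Fin (d + 1), ∀ p ∈ A, ∀ q ∈ A, ‖(p : EE d) + q‖ < b → c p ≠ c q

/-- The same for a finite family of points. -/
def ColX {d n : ℕ} (b : ℝ) (x : Fin n → Sph d) : Prop :=
  ∃ c : Fin n → Fin (d + 1), ∀ i j, ‖(x i : EE d) + x j‖ < b → c i ≠ c j

/-- Double cap: the points near `x` or near `-x`. -/
def DC {d : ℕ} (x : Sph d) (r : ℝ) : Set (Sph d) :=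
  {p | ‖(p : EE d) - x‖ < r ∨ ‖(p : EE d) + x‖ < r}

/-- Distance modulo the antipodal map. -/
noncomputable def Dp {d : ℕ} (p q : Sph d) : ℝ := min ‖(p : EE d) - q‖ ‖(p : EE d) + q‖

/-- The holes `H` are contained in very well separated double caps around `x i` with radii
`r i ∈ [b, ρ]`, and outside the holes there is a colouring (scale `b`). -/
structure Holes (d : ℕ) (b ρ : ℝ) (m : ℕ) (x : Fin m → Sph d) (r : Fin m → ℝ)
    (H : Set (Sph d)) : Prop where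
  meas : MeasurableSet H
  col : Col d b Hᶜ
  rad : ∀ i, b ≤ r i ∧ r i ≤ ρ
  sep : ∀ i j, i ≠ j → 50 * (r i + r j) < ‖(x i : EE d) - x j‖ ∧
    50 * (r i + r j) < ‖(x i : EE d) + x j‖
  cov : ∀ p ∈ H, ∃ i, p ∈ DC (x i) (r i)

/-- There are holes as above such that the measure of the holes in each double cap is at most
`v b^d`. -/
def Str (d : ℕ) (b v ρ : ℝ) : Prop :=
  ∃ (m : ℕ) (x : Fin m → Sph d) (r : Fin m → ℝ) (H : Set (Sph d)), Holes d b ρ m x r H ∧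
    ∀ i, unif d (H ∩ DC (x i) (r i)) ≤ ENNReal.ofReal (v * b ^ d)

/-! ## Geometry and measure of the sphere -/

/-- **PRB.** -/
def S_PRB : Prop := ∀ d : ℕ, IsProbabilityMeasure (unif d)

/-- **CAP.** Lower bound for the measure of caps (all caps of radius `s` have the same measure by
the invariance under reflections, and `C s^(-d)` of them cover the sphere), and number of
separated points (balls of radius `s/2` around them are disjoint subsets of the shell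
`1 - s/2 ≤ ‖v‖ ≤ 1 + s/2`). -/
def S_CAP : Prop :=
  ∀ d : ℕ, 1 ≤ d → ∃ κ C : ℝ, 0 < κ ∧ 0 < C ∧
    (∀ (x : Sph d) (s : ℝ), 0 < s → s ≤ 1 →
      ENNReal.ofReal (κ * s ^ d) ≤ unif d {p | ‖(p : EE d) - x‖ < s}) ∧
    ∀ (s : ℝ) (Z : Finset (Sph d)), 0 < s → s ≤ 1 →
      (∀ p ∈ Z, ∀ q ∈ Z, p ≠ q → s ≤ ‖(p : EE d) - q‖) → (Z.card : ℝ) ≤ C / s ^ d

/-- **PCK.** Local packing bound (any dimension, volume of balls). -/
def S_PCK : Prop :=
  ∀ (d : ℕ) (s R : ℝ) (x : EE d) (Z : Finset (Sph d)), 0 < s → 0 ≤ R →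
    (∀ p ∈ Z, ∀ q ∈ Z, p ≠ q → s ≤ ‖(p : EE d) - q‖) →
    (∀ p ∈ Z, ‖(p : EE d) - x‖ ≤ R) → (Z.card : ℝ) ≤ (1 + 2 * R / s) ^ (d + 1)

/-- A partition of the sphere into `m` cells of size `s`. -/
structure Cells (d : ℕ) (κ C s : ℝ) (m : ℕ) (z : Fin m → Sph d) (Q : Fin m → Set (Sph d)) :
    Prop where
  meas : ∀ j, MeasurableSet (Q j)
  disj : ∀ j k, j ≠ k → Disjoint (Q j) (Q k)
  cov : ∀ p, ∃ j, p ∈ Q j
  small : ∀ j, ∀ p ∈ Q j, ‖(p : EE d) - z j‖ < s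
  big : ∀ j, ENNReal.ofReal (κ * s ^ d) ≤ unif d (Q j)
  num : (m : ℝ) ≤ C / s ^ d
  loc : ∀ (R : ℝ) (j : Fin m), 0 ≤ R →
    ((Finset.univ.filter fun k => Dp (z j) (z k) ≤ R).card : ℝ) ≤ 2 * (1 + 2 * R / s) ^ (d + 1)

/-- **CEL.** -/
def C_CEL : Prop :=
  ∀ d : ℕ, 1 ≤ d → ∃ κ C : ℝ, 0 < κ ∧ 0 < C ∧ ∀ s : ℝ, 0 < s → s ≤ 1 →
    ∃ (m : ℕ) (z : Fin m → Sph d) (Q : Fin m → Set (Sph d)), Cells d κ C s m z Q

/-- **Part CEL** (cells of the nearest point of a maximal `s`-separated set). -/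
def S_CEL : Prop := S_CAP → S_PCK → C_CEL

/-- The linear map which is the dilation with centre `x` and factor `lam` in the gnomonic chart
`x + u`, `u ⟂ x`, after the translation by `-y`: it maps `x + u` to `x + lam (u - y)`. -/
noncomputable def AA {d : ℕ} (x : EE d) (lam : ℝ) (y p : EE d) : EE d :=
  lam • p + inner ℝ x p • ((1 - lam) • x - lam • y)

/-- The points which are mapped to the cone over `T` by this dilation. -/
def KK {d : ℕ} (x : Sph d) (lam : ℝ) (y : EE d) (T : Set (Sph d)) : Set (Sph d) :=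
  {p | ∃ q ∈ T, ∃ t : ℝ, 0 < t ∧ AA (x : EE d) lam y (p : EE d) = t • (q : EE d)}

/-- **VOL.** The measure of the shrunken set (`det = lam^d`; cones over sets of the sphere). -/
def S_VOL : Prop :=
  ∀ (d : ℕ) (x : Sph d) (lam κ : ℝ) (y : EE d) (T : Set (Sph d)), 1 ≤ lam → 0 < κ → κ ≤ 1 →
    inner ℝ (x : EE d) y = 0 → MeasurableSet T →
    (∀ p ∈ T, κ ≤ |inner ℝ (x : EE d) (p : EE d)|) →
    MeasurableSet (KK x lam y T) ∧
    unif d (KK x lam y T) ≤ ENNReal.ofReal (1 / (κ ^ (d + 1) * lam ^ d)) * unif d T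

/-- **DIS.** Shrunken copies at different positions are disjoint. -/
def S_DIS : Prop :=
  ∀ (d : ℕ) (x : Sph d) (lam r : ℝ) (y y' : EE d) (T : Set (Sph d)), 1 ≤ lam → 0 < r →
    r ≤ 1 / 10 → inner ℝ (x : EE d) y = 0 → inner ℝ (x : EE d) y' = 0 → T ⊆ DC x r →
    3 * r / lam ≤ ‖y - y'‖ → Disjoint (KK x lam y T) (KK x lam y' T)

/-- **GRD.** Many positions. -/
def S_GRD : Prop :=
  ∀ d : ℕ, 1 ≤ d → ∃ (κ lam₀ : ℝ), 0 < κ ∧ 1 ≤ lam₀ ∧
    ∀ (x : Sph d) (r lam : ℝ), 0 < r → lam₀ ≤ lam →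
    ∃ (N : ℕ) (y : Fin N → EE d), κ * lam ^ d ≤ (N : ℝ) ∧ ∀ i, inner ℝ (x : EE d) (y i) = 0 ∧
      ‖y i‖ ≤ r / 4 ∧ ∀ j, i ≠ j → 3 * r / lam ≤ ‖y i - y j‖

/-- **ADT.** The surgery: the colouring outside the holes at scale `b` gives a colouring at scale
`b / ((1 + 20 ρ) lam)` outside shrunken holes at arbitrary positions. -/
def S_ADT : Prop :=
  ∀ (d : ℕ) (b ρ : ℝ) (m : ℕ) (x : Fin m → Sph d) (r : Fin m → ℝ) (H : Set (Sph d)),
    0 < b → 0 < ρ → ρ ≤ 1 / 100 → Holes d b ρ m x r H →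
    ∀ (lam : ℝ) (y : Fin m → EE d), 10 ≤ lam → (∀ i, inner ℝ (x i : EE d) (y i) = 0) →
      (∀ i, ‖y i‖ ≤ r i / 4) →
      Col d (b / ((1 + 20 * ρ) * lam)) (⋃ i, KK (x i) lam (y i) (H ∩ DC (x i) (r i)))ᶜ

/-- **EMP.** Second moment method for empty sets. -/
def S_EMP : Prop :=
  ∀ (α : Type) (_ : MeasurableSpace α) (μ : Measure α) (_ : IsProbabilityMeasure μ)
    (n N : ℕ) (K : Fin N → Set α) (V : ℝ), 0 < N → 0 ≤ V → V < 1 →
    (∀ j, MeasurableSet (K j)) → (∀ j k, j ≠ k → Disjoint (K j) (K k)) →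
    (∀ j, μ (K j) ≤ ENNReal.ofReal V) →
    (Measure.pi fun _ : Fin n => μ) {x | ∀ j, ∃ i, x i ∈ K j} ≤
      ENNReal.ofReal (1 / (N * (1 - V) ^ n))

/-- **ASA.** -/
def S_ASA : Prop :=
  ∀ (γ k : ℝ), 0 < γ → γ < 1 → 0 < k →
    Tendsto (fun n : ℕ => k * ((n : ℝ) / Real.log n) * (1 - γ * (Real.log n / n)) ^ n)
      atTop atTop

/-- **ASB.** -/
def S_ASB : Prop :=
  ∀ (δ k : ℝ), 0 < δ → 0 < k →
    Tendsto (fun n : ℕ => k * ((n : ℝ) / Real.log n) * Real.exp (-((1 + δ) * Real.log n)))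
      atTop (𝓝 0)

/-- The scale `c (log n / n)^(1/d)`. -/
noncomputable def bn (d : ℕ) (c : ℝ) (n : ℕ) : ℝ := c * (Real.log n / n) ^ ((1 : ℝ) / d)

/-- **A.** Below the threshold. -/
def C_A : Prop :=
  ∀ (d : ℕ) (w c : ℝ), 1 ≤ d → 0 < w → 0 < c → w * c ^ d < 1 →
    (∀ ρ : ℝ, 0 < ρ → ∃ b v : ℝ, 0 < b ∧ b < ρ ∧ v < w ∧ Str d b v ρ) →
    Tendsto (fun n : ℕ => law d n {x | ¬ ColX (bn d c n) x}) atTop (𝓝 0)

/-- **Part A** (assembly). -/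
def S_A : Prop := S_PRB → S_VOL → S_DIS → S_GRD → S_ADT → S_EMP → S_ASA → C_A

/-- **ISO.** Greedy choice of isolated clusters in a finite (pseudo)metric space: if no ball of
radius `L * 1000^(M+1)` contains more than `M` points, then there are centres `C ⊆ S` with levels
`k ≤ M` such that the balls of radius `L * 1000^k` cover `S` and the centres are separated by
`L * 1000^(k+1)`. -/
def S_ISO : Prop :=
  ∀ (ι : Type) (D : ι → ι → ℝ) (S : Finset ι) (M : ℕ) (L : ℝ), 0 < L →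
    (∀ i, D i i = 0) → (∀ i j, D i j = D j i) → (∀ i j k, D i k ≤ D i j + D j k) →
    (∀ i ∈ S, ∀ T : Finset ι, T ⊆ S → (∀ j ∈ T, D i j ≤ L * 1000 ^ (M + 1)) → T.card ≤ M) →
    ∃ (C : Finset ι) (k : ι → ℕ), C ⊆ S ∧ (∀ i ∈ C, k i ≤ M) ∧
      (∀ j ∈ S, ∃ i ∈ C, D i j ≤ L * 1000 ^ k i) ∧
      ∀ i ∈ C, ∀ j ∈ C, i ≠ j → L * 1000 ^ (k i + 1) < D i j

/-- **WIN.** Union bound for the empty cells in the windows. -/
def S_WIN : Prop :=
  ∀ (d : ℕ) (κ C s : ℝ) (m : ℕ) (z : Fin m → Sph d) (Q : Fin m → Set (Sph d)),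
    IsProbabilityMeasure (unif d) → Cells d κ C s m z Q →
    ∀ (n W : ℕ) (R τ : ℝ), 0 ≤ τ →
      (∀ j, (Finset.univ.filter fun k => Dp (z j) (z k) ≤ R).card ≤ W) →
      law d n {x | ∃ (j : Fin m) (T : Finset (Fin m)), (∀ k ∈ T, Dp (z j) (z k) ≤ R) ∧
          (∀ k ∈ T, ∀ i, x i ∉ Q k) ∧ ENNReal.ofReal τ < unif d (⋃ k ∈ T, Q k)} ≤
        ENNReal.ofReal (m * 2 ^ W * Real.exp (-(n * τ)))

/-- **BDT.** A coloured point set with small windows gives holes. -/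
def C_BDT : Prop :=
  ∀ (d : ℕ) (κ C b η : ℝ) (m : ℕ) (z : Fin m → Sph d) (Q : Fin m → Set (Sph d)),
    1 ≤ d → 0 < κ → 0 < b → 0 < η → η ≤ 1 / 8 → Cells d κ C (η * b) m z Q →
    ∀ (n M : ℕ) (x : Fin n → Sph d) (τ v ρ : ℝ), ColX b x →
      τ ≤ M * (κ * (η * b) ^ d) → τ ≤ v * ((1 - 4 * η) * b) ^ d →
      2 * 1000 ^ M * b ≤ ρ →
      (∀ (j : Fin m) (T : Finset (Fin m)), (∀ k ∈ T, Dp (z j) (z k) ≤ 1000 ^ (M + 1) * b) →
          (∀ k ∈ T, ∀ i, x i ∉ Q k) → unif d (⋃ k ∈ T, Q k) ≤ ENNReal.ofReal τ) →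
      Str d ((1 - 4 * η) * b) v ρ

/-- **Part BDT.** -/
def S_BDT : Prop := S_ISO → C_BDT

/-- **B.** Above the threshold. -/
def C_B : Prop :=
  ∀ (d : ℕ) (w c : ℝ), 1 ≤ d → 0 < w → 0 < c → 1 < w * c ^ d →
    (∃ ρ : ℝ, 0 < ρ ∧ ∀ b : ℝ, 0 < b → b < ρ → ¬ Str d b w ρ) →
    Tendsto (fun n : ℕ => law d n {x | ColX (bn d c n) x}) atTop (𝓝 0)

/-- **Part B** (assembly). -/
def S_B : Prop := S_PRB → C_CEL → S_WIN → C_BDT → S_ASB → C_B

/-- **LS.** Lyusternik–Shnirelman (from the Borsuk–Ulam theorem of the library). -/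
def S_LS : Prop := ∀ (d : ℕ) (b : ℝ), 1 ≤ d → 0 < b → ¬ Col d b Set.univ

/-- **POS.** The holes have at least a certain size. -/
def C_POS : Prop :=
  ∀ d : ℕ, 1 ≤ d → ∃ v₀ ρ : ℝ, 0 < v₀ ∧ 0 < ρ ∧ ∀ b v : ℝ, 0 < b → b < ρ → Str d b v ρ → v₀ ≤ v

/-- **Part POS.** -/
def S_POS : Prop := S_LS → S_CAP → C_POS

/-- **FNT.** A colouring with one double hole of radius `K b`. -/
def C_FNT : Prop :=
  ∀ d : ℕ, 1 ≤ d → ∃ v₁ : ℝ, ∀ ρ : ℝ, 0 < ρ → ∃ b : ℝ, 0 < b ∧ b < ρ ∧ Str d b v₁ ρ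

/-- **Part FNT.** -/
def S_FNT : Prop := S_PRB → S_VOL → C_FNT

/-- The final statement. -/
def C_RES : Prop :=
  ∀ d : ℕ, 2 ≤ d → ∃ c : ℝ, 0 < c ∧ ∀ (ε : ℝ) (α : ℕ → ℝ), 0 < ε →
    ((∀ᶠ n : ℕ in atTop, (1 + ε) * c * (Real.log n / n) ^ ((1 : ℝ) / d) < α n) →
      Tendsto (fun n : ℕ => law d n
        {x | ((d + 1 : ℕ) : ℕ∞) < (borsuk (α n) x).chromaticNumber}) atTop (𝓝 1)) ∧
    ((∀ᶠ n : ℕ in atTop, α n < (1 - ε) * c * (Real.log n / n) ^ ((1 : ℝ) / d)) →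
      Tendsto (fun n : ℕ => law d n
        {x | ((d + 1 : ℕ) : ℕ∞) < (borsuk (α n) x).chromaticNumber}) atTop (𝓝 0))

/-- **Part END.** -/
def S_END : Prop := S_PRB → C_A → C_B → C_POS → C_FNT → C_RES

end Pool.Agent.H3.RB
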